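import Pool.Agent.Helper21_CN2.Aln

/-!
Squad CN2: modules K_AK4 and K_DN
-/

set_option autoImplicit false

namespace Pool.Agent.CN2.H27

open Pool.Agent.CON Pool.Agent.CN2 Pool.Agent.CN2.H21

/-- Module K_AK4. -/
theorem k_ak4 (hCMP : X_CMP) (hALN : X_ALN) (hAX : J_AX) (hAM : J_AM) (hAO : J_AO) : K_AK4 := by
  intro M _ b k C s τ h hC hbad i0 m l r hs hτ hm hnd hl hj hn hr
  have hty := hC.ty i0
  rw [hτ] at hty
  obtain ⟨_, v, hA, hInA⟩ := hty
  have hI := hC.irr i0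
  obtain ⟨h1, h2, h3, h4, h5⟩ := hAX M b (C i0) (s i0) m 4 v h hI hs hA hInA (by norm_num)
    (by decide) hm
  have h6 := hAM M b (C i0) (s i0) m 4 v h hI hs hA hInA (by norm_num) (by decide) hm
  have hs0 := hI.pos
  refine aln_use h hCMP hALN hC hbad i0 (x1 := xA v 4) (ω := wA v 4) (μ := s i0 * (m + 1))
    (e0 := if r = 2 * s i0 then 0 else 4 * (s i0 * (m + 1))) (j0 := 2) l h1 h2 (by positivity) h4
    ?_ hnd hl (by rw [hj]; norm_num) hn
    (P0 := fun ρ t => (ρ = 2 * s i0 ∧ b t (wA v 4) = 0) ∨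
      ∃ d : ℤ, 1 < d ∧ ¬ (2 : ℤ) ∣ d ∧ ρ = 2 * s i0 * d ∧ (4 : ℤ) = (m + 1 - 4) * (d - 1) ∧
        (b t (wA v 4) = s i0 * (m + 1) * 4 ∨ b t (wA v 4) = -(s i0 * (m + 1) * 4)))
    h6 h5 ?_ ?_ ?_
  · have := h3
    push_cast at this
    omega
  · split_ifs
    · exact dvd_zero _
    · exact dvd_refl _
  · intro ρ T hρ hP
    have hρr := hr ρ hρ
    rcases hP with ⟨h7, h8⟩ | ⟨d, hd, _, h7, _, h8⟩
    · rw [if_pos (by rw [← hρr, h7]), h8]
      simp
    · have hne : ¬ r = 2 * s i0 := by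
        rw [← hρr, h7]
        intro h9
        have h10 : 0 < 2 * s i0 * (d - 1) := by
          have : 0 < d - 1 := by linarith
          positivity
        nlinarith
      rw [if_neg hne]
      rcases h8 with h8 | h8
      · rw [h8]
        exact ⟨0, by ring⟩
      · rw [h8]
        exact ⟨-1, by ring⟩
  · intro w hw hw0 hw2 hdiv
    exact hAO M b (C i0) (s i0) m 4 v w h hI hs hA hInA (by norm_num) (by norm_num) hm hw hw0 hw2
      hdiv

section

variable {M : Type} [AddCommGroup M] {b : M → M → ℤ} (h : PD b) {k : ℕ} {C : Fin k → Set M}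
  {s : Fin k → ℤ} {τ : Fin k → Ty}

/-- The two forms of the bound. -/
theorem jr_of_jb {C : Set M} {x : M} {j : ℤ} (hb : JB b C x j) :
    JR b (AddSubgroup.closure C) x j fun _ _ => True := by
  rintro t ρ ⟨⟨z, hz, rfl⟩, h1, h2, h3⟩
  exact ⟨hb z hz ρ h1 h2 h3, fun _ => trivial⟩

include h

/-- A root of an even component. -/
theorem root_even (hJ2 : E_J2) (hN2 : E_N2) (hC : CT b C s τ) (i : Fin k) (hs : (2 : ℤ) ∣ s i) :
    ∃ α ∈ AddSubgroup.closure (C i), (4 : ℤ) ∣ b α α ∧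
      JR b (AddSubgroup.closure (C i)) α 2 fun _ _ => True := by
  obtain ⟨α, hα⟩ := (hC.irr i).ne
  have h4 : (4 : ℤ) ∣ b α α := by
    rw [(hC.irr i).norm α hα]
    omega
  exact ⟨α, AddSubgroup.subset_closure hα, h4, jr_of_jb (hJ2 M b (C i) α h
    (AddSubgroup.subset_closure hα) ((hN2 M b (C i) (s i) h (hC.irr i)).1 α hα) h4)⟩

/-- A root of an odd component. -/
theorem root_odd (hJ1 : E_J1) (hN2 : E_N2) (hC : CT b C s τ) (i : Fin k) (hs : ¬ (2 : ℤ) ∣ s i) :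
    ∃ α ∈ AddSubgroup.closure (C i), (4 : ℤ) ∣ b α α - 2 ∧
      JR b (AddSubgroup.closure (C i)) α 1 fun _ _ => True := by
  obtain ⟨α, hα⟩ := (hC.irr i).ne
  have h4 : (4 : ℤ) ∣ b α α - 2 := by
    rw [(hC.irr i).norm α hα]
    omega
  exact ⟨α, AddSubgroup.subset_closure hα, h4, jr_of_jb (hJ1 M b (C i) α h
    (AddSubgroup.subset_closure hα) ((hN2 M b (C i) (s i) h (hC.irr i)).1 α hα))⟩

/-- The application of X_NOR to a component D_m. -/
theorem dn_use (hNOR : X_NOR) (hJD : J_D) (hC : CT b C s τ) (hbad : ¬ Bad b) (i0 : Fin k)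
    (m : ℕ) (hs : ¬ (2 : ℤ) ∣ s i0) (hτ : τ i0 = .D m) (m' : ℕ) (h1 : 1 ≤ m') (h2 : Even m')
    (h3 : m' < m) (l : List (Tch k M)) (hnd : (i0 :: l.map fun a => a.1).Nodup)
    (hl : ∀ a ∈ l, a.2.1 ∈ AddSubgroup.closure (C a.1) ∧
      JR b (AddSubgroup.closure (C a.1)) a.2.1 a.2.2.1 a.2.2.2)
    (h5 : 5 ≤ (m' : ℤ) / 2 + (l.map fun a => a.2.2.1).sum)
    (h4 : (4 : ℤ) ∣ m' + (l.map fun a => b a.2.1 a.2.1).sum) : False := by
  apply hbad
  have hty := hC.ty i0
  rw [hτ] at hty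
  obtain ⟨_, F, hF, hInF⟩ := hty
  obtain ⟨x, hx, hx4, hx2, hJ⟩ := hJD M b (C i0) (s i0) m m' F h (hC.irr i0) hs hF hInF h1 h2 h3
  refine hNOR M b k C s τ ((i0, x, (m' : ℤ) / 2, fun ρ _ => ρ = 2 * s i0) :: l) h hC ?_ ?_ ?_ ?_ ?_
  · rw [List.map_cons]
    exact hnd
  · intro a ha
    rcases List.mem_cons.mp ha with rfl | ha
    · exact ⟨hx, hJ⟩
    · exact hl a ha
  · rw [List.map_cons, List.sum_cons]
    exact h5
  · rw [List.map_cons, List.sum_cons]
    have h6 := h4.add hx4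
    have e : (m' : ℤ) + (l.map fun a => b a.2.1 a.2.1).sum + (b x x - m') =
      b x x + (l.map fun a => b a.2.1 a.2.1).sum := by ring
    rwa [e] at h6
  · exact ⟨_, List.mem_cons_self, hx2⟩

end

/-- Module K_DN. -/
theorem k_dn (hNOR : X_NOR) (hJD : J_D) (hJ1 : E_J1) (hJ2 : E_J2) (hN2 : E_N2) : K_DN := by
  intro M _ b k C s τ h hC hbad i0 m hs hτ
  have hne1 : ∀ i, (2 : ℤ) ∣ s i → i0 ≠ i := by
    rintro i hi rfl
    exact hs hi
  have hne2 : ∀ i, τ i = .A 1 → i0 ≠ i := by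
    rintro i hi rfl
    rw [hτ] at hi
    exact absurd hi (by simp)
  have hne3 : ∀ i j, (2 : ℤ) ∣ s i → ¬ (2 : ℤ) ∣ s j → i ≠ j := by
    rintro i j hi hj rfl
    exact hj hi
  refine ⟨?_, ?_, ?_, ?_, ?_, ?_⟩
  · intro i1 i2 hm h1 h2 h3
    obtain ⟨α, a1, a2, a3⟩ := root_even h hJ2 hN2 hC i1 h1
    obtain ⟨β, b1, b2, b3⟩ := root_odd h hJ1 hN2 hC i2 h2
    refine dn_use h hNOR hJD hC hbad i0 m hs hτ 6 (by norm_num) (by decide) (by omega)
      [(i1, α, 2, fun _ _ => True), (i2, β, 1, fun _ _ => True)] ?_ ?_ ?_ ?_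
    · simp [hne1 i1 h1, hne2 i2 h3, hne3 i1 i2 h1 h2]
    · intro a ha
      simp only [List.mem_cons, List.not_mem_nil, or_false] at ha
      rcases ha with rfl | rfl
      · exact ⟨a1, a3⟩
      · exact ⟨b1, b3⟩
    · simp
    · simp only [List.map_cons, List.map_nil, List.sum_cons, List.sum_nil]
      push_cast
      omega
  · intro i1 hm h1
    obtain ⟨α, a1, a2, a3⟩ := root_even h hJ2 hN2 hC i1 h1
    refine dn_use h hNOR hJD hC hbad i0 m hs hτ 8 (by norm_num) (by decide) (by omega)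
      [(i1, α, 2, fun _ _ => True)] ?_ ?_ ?_ ?_
    · simp [hne1 i1 h1]
    · intro a ha
      simp only [List.mem_cons, List.not_mem_nil, or_false] at ha
      rcases ha with rfl
      exact ⟨a1, a3⟩
    · simp
    · simp only [List.map_cons, List.map_nil, List.sum_cons, List.sum_nil]
      push_cast
      omega
  · intro j hm hj hj2
    obtain ⟨α, a1, a2, a3⟩ := root_odd h hJ1 hN2 hC (j 0) (hj2 0).1
    obtain ⟨β, b1, b2, b3⟩ := root_odd h hJ1 hN2 hC (j 1) (hj2 1).1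
    obtain ⟨γ, c1, c2, c3⟩ := root_odd h hJ1 hN2 hC (j 2) (hj2 2).1
    refine dn_use h hNOR hJD hC hbad i0 m hs hτ 6 (by norm_num) (by decide) (by omega)
      [(j 0, α, 1, fun _ _ => True), (j 1, β, 1, fun _ _ => True), (j 2, γ, 1, fun _ _ => True)]
      ?_ ?_ ?_ ?_
    · have e1 : j 0 ≠ j 1 := hj.ne (by decide)
      have e2 : j 0 ≠ j 2 := hj.ne (by decide)
      have e3 : j 1 ≠ j 2 := hj.ne (by decide)
      simp [hne2 _ (hj2 0).2, hne2 _ (hj2 1).2, hne2 _ (hj2 2).2, e1, e2, e3]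
    · intro a ha
      simp only [List.mem_cons, List.not_mem_nil, or_false] at ha
      rcases ha with rfl | rfl | rfl
      · exact ⟨a1, a3⟩
      · exact ⟨b1, b3⟩
      · exact ⟨c1, c3⟩
    · simp
    · simp only [List.map_cons, List.map_nil, List.sum_cons, List.sum_nil]
      push_cast
      omega
  · intro i1 i2 hm h12 h1 h1' h2 h2'
    obtain ⟨α, a1, a2, a3⟩ := root_odd h hJ1 hN2 hC i1 h1
    obtain ⟨β, b1, b2, b3⟩ := root_odd h hJ1 hN2 hC i2 h2
    refine dn_use h hNOR hJD hC hbad i0 m hs hτ 8 (by norm_num) (by decide) (by omega)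
      [(i1, α, 1, fun _ _ => True), (i2, β, 1, fun _ _ => True)] ?_ ?_ ?_ ?_
    · simp [hne2 i1 h1', hne2 i2 h2', h12]
    · intro a ha
      simp only [List.mem_cons, List.not_mem_nil, or_false] at ha
      rcases ha with rfl | rfl
      · exact ⟨a1, a3⟩
      · exact ⟨b1, b3⟩
    · simp
    · simp only [List.map_cons, List.map_nil, List.sum_cons, List.sum_nil]
      push_cast
      omega
  · intro i1 hm h1 h1'
    obtain ⟨α, a1, a2, a3⟩ := root_odd h hJ1 hN2 hC i1 h1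
    refine dn_use h hNOR hJD hC hbad i0 m hs hτ 10 (by norm_num) (by decide) (by omega)
      [(i1, α, 1, fun _ _ => True)] ?_ ?_ ?_ ?_
    · simp [hne2 i1 h1']
    · intro a ha
      simp only [List.mem_cons, List.not_mem_nil, or_false] at ha
      rcases ha with rfl
      exact ⟨a1, a3⟩
    · simp
    · simp only [List.map_cons, List.map_nil, List.sum_cons, List.sum_nil]
      push_cast
      omega
  · by_contra hm
    push Not at hm
    refine dn_use h hNOR hJD hC hbad i0 m hs hτ 12 (by norm_num) (by decide) (by omega)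
      [] ?_ ?_ ?_ ?_
    · simp
    · intro a ha
      exact absurd ha (by simp)
    · simp
    · simp only [List.map_nil, List.sum_nil]
      push_cast

end Pool.Agent.CN2.H27
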